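import Pool.Agent.H21.BT.Targets

/-!
# Row OT1: the norm of the dual function of one level
-/

set_option autoImplicit false

open Finset Pool.Agent.H6.N4D Pool.Agent.H21.BS Pool.Agent.H21.BT

namespace Pool.Agent.H25.BT

theorem pf_OT1 (hLVT : T_LVT) (hDIT : T_DIT) : T_OT1 := by
  intro W hW
  obtain ⟨C, hC, hD⟩ := hDIT W hW
  refine ⟨2 * C, by positivity, ?_⟩
  intro S A z hS hz i hi1 hiK
  obtain ⟨hA, hP, hV⟩ := hLVT S W A hS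
  obtain ⟨hN, hs1, hsi, hcnt, hL, -, hdec⟩ := hA i hiK
  have hNr : (0 : ℝ) < S.N i := by exact_mod_cast hN
  have hLr : (0 : ℝ) < S.L := by exact_mod_cast hL
  have hcr : (S.cnt i : ℝ) * S.N i = S.L := by exact_mod_cast hcnt
  have h1 := hdec fun n => ‖S.Om z i n‖ ^ 2
  have hs1r : (1 : ℝ) ≤ S.s 0 := by exact_mod_cast hs1
  have hs0 : (0 : ℝ) < S.s 0 := by linarith
  have hκ : 1 / (S.P i : ℝ) + (S.N i : ℝ) ^ (-(2 / 5) : ℝ) ≤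
      2 * (S.s 0 : ℝ) ^ (-(1 / 5) : ℝ) := by
    have e1 : 1 / (S.P i : ℝ) ≤ (S.s 0 : ℝ) ^ (-(1 / 5) : ℝ) := by
      have h2 : (S.s 0 : ℝ) ≤ S.P i := by exact_mod_cast hP i hi1 hiK
      have h3 : 1 / (S.P i : ℝ) ≤ 1 / S.s 0 := one_div_le_one_div_of_le hs0 h2
      have h4 : (S.s 0 : ℝ) ^ (-1 : ℝ) ≤ (S.s 0 : ℝ) ^ (-(1 / 5) : ℝ) :=
        Real.rpow_le_rpow_of_exponent_le hs1r (by norm_num)
      rw [Real.rpow_neg_one] at h4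
      rw [one_div (S.s 0 : ℝ)] at h3
      exact h3.trans h4
    have e2 : (S.N i : ℝ) ^ (-(2 / 5) : ℝ) ≤ (S.s 0 : ℝ) ^ (-(1 / 5) : ℝ) := by
      have h2 : (S.s 0 : ℝ) ≤ S.s i := by exact_mod_cast hsi
      have h3 : (S.s 0 : ℝ) ≤ S.N i := by
        have h5 : (S.N i : ℝ) = (S.s i : ℝ) ^ 2 := by
          unfold TS.N
          push_cast
          ring
        rw [h5]
        nlinarith
      have h4 : (S.N i : ℝ) ^ (-(2 / 5) : ℝ) ≤ (S.s 0 : ℝ) ^ (-(2 / 5) : ℝ) :=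
        Real.rpow_le_rpow_of_nonpos hs0 h3 (by norm_num)
      exact h4.trans (Real.rpow_le_rpow_of_exponent_le hs1r (by norm_num))
    linarith
  have hkA : 0 ≤ C * ((S.k : ℝ) ^ 4 * A ^ 2) := by positivity
  have h2 : ∀ j ∈ range (S.cnt i), ∑ x ∈ range (S.N i), ‖S.Om z i (S.U + j * S.N i + x)‖ ^ 2 ≤
      S.N i * ((3 + 6 * W) * ∑ q ∈ S.Q i, 1 / (q : ℝ) * ‖z i j q‖ ^ 2 +
        C * ((S.k : ℝ) ^ 4 * A ^ 2) * (2 * (S.s 0 : ℝ) ^ (-(1 / 5) : ℝ))) := by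
    intro j hj
    rw [mem_range] at hj
    have h3 := hD A (S.P i) (S.V i j) (z i j) (hS.ok i hi1 hiK j hj) hS.k1 (hz i j)
    have h4 : ∑ x ∈ range (S.N i), ‖S.Om z i (S.U + j * S.N i + x)‖ ^ 2 =
        ∑ x ∈ range (S.V i j).N, ‖(S.V i j).om (z i j) ((S.V i j).a + x)‖ ^ 2 := by
      refine sum_congr rfl fun x hx => ?_
      rw [hV z i j x hiK hj (mem_range.1 hx)]
      rfl
    rw [h4]
    refine h3.trans ?_
    refine mul_le_mul_of_nonneg_left ?_ hNr.le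
    have h5 := mul_le_mul_of_nonneg_left hκ hkA
    have h6 : (3 + 6 * W) * ∑ q ∈ (S.V i j).Q, 1 / (q : ℝ) * ‖z i j q‖ ^ 2 +
        C * (((S.V i j).k : ℝ) ^ 4 * A ^ 2) *
          (1 / (S.P i : ℝ) + ((S.V i j).N : ℝ) ^ (-(2 / 5) : ℝ)) =
        (3 + 6 * W) * ∑ q ∈ S.Q i, 1 / (q : ℝ) * ‖z i j q‖ ^ 2 +
        C * ((S.k : ℝ) ^ 4 * A ^ 2) * (1 / (S.P i : ℝ) + (S.N i : ℝ) ^ (-(2 / 5) : ℝ)) := rfl
    rw [h6]
    linarith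
  unfold avr
  rw [div_le_iff₀ hLr, h1]
  refine (sum_le_sum h2).trans (le_of_eq ?_)
  rw [← mul_sum, sum_add_distrib, sum_const, card_range, nsmul_eq_mul, ← mul_sum]
  have h7 : ((3 + 6 * W) * ((S.N i : ℝ) / S.L * ∑ j ∈ range (S.cnt i), ∑ q ∈ S.Q i,
      1 / (q : ℝ) * ‖z i j q‖ ^ 2) + 2 * C * ((S.k : ℝ) ^ 4 * A ^ 2) *
        (S.s 0 : ℝ) ^ (-(1 / 5) : ℝ)) * S.L =
      (3 + 6 * W) * (S.N i * ∑ j ∈ range (S.cnt i), ∑ q ∈ S.Q i,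
        1 / (q : ℝ) * ‖z i j q‖ ^ 2) + 2 * C * ((S.k : ℝ) ^ 4 * A ^ 2) *
        (S.s 0 : ℝ) ^ (-(1 / 5) : ℝ) * S.L := by
    field_simp
  rw [h7, ← hcr]
  ring

end Pool.Agent.H25.BT
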